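import Mathlib
import Pool.Agent.Y290.PL.Stm

/-!
# Job PL-CMP (helper446): composition of analytic functions with Moebius transformations
-/

set_option autoImplicit false

namespace Pool.Agent.Y446.PL

open MeasureTheory Set Pool.Agent.Y290.PL
open scoped ENNReal ContDiff

lemma ej_add (j k : ℤ) (t : ℝ) : ej (j + k) t = ej j t * ej k t := by
  unfold ej
  rw [← Complex.exp_add]
  congr 1
  push_cast
  ring

lemma ej_zero (t : ℝ) : ej 0 t = 1 := by
  unfold ej
  simp

lemma ej_one_pow (n : ℕ) (t : ℝ) : ej 1 t ^ n = ej n t := by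
  induction n with
  | zero => rw [pow_zero, Nat.cast_zero, ej_zero]
  | succ n ih => rw [pow_succ, ih, Nat.cast_succ, ej_add]

lemma norm_ej (j : ℤ) (t : ℝ) : ‖ej j t‖ = 1 := by
  unfold ej
  exact Complex.norm_exp_ofReal_mul_I _

/-- the Moebius transformation -/
noncomputable def mo (r : ℝ) (w : ℂ) : ℂ := (w - r) / (1 - r * w)

lemma mo_sq (r : ℝ) (w : ℂ) :
    ‖1 - r * w‖ ^ 2 - ‖w - r‖ ^ 2 = (1 - ‖w‖ ^ 2) * (1 - r ^ 2) := by
  rw [← Complex.normSq_eq_norm_sq, ← Complex.normSq_eq_norm_sq, ← Complex.normSq_eq_norm_sq,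
    Complex.normSq_apply, Complex.normSq_apply, Complex.normSq_apply]
  simp only [Complex.sub_re, Complex.sub_im, Complex.one_re, Complex.one_im, Complex.mul_re,
    Complex.mul_im, Complex.ofReal_re, Complex.ofReal_im]
  ring

lemma den_ne (r : ℝ) (hr : 0 < r) (hr1 : r < 1) (w : ℂ) (hw : ‖w‖ ≤ 1) : 1 - (r : ℂ) * w ≠ 0 := by
  intro h
  have h1 : (r : ℂ) * w = 1 := (sub_eq_zero.1 h).symm
  have h2 := congrArg norm h1
  rw [norm_mul, Complex.norm_real, Real.norm_eq_abs, abs_of_pos hr, norm_one] at h2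
  nlinarith [norm_nonneg w]

lemma mo_le (r : ℝ) (hr : 0 < r) (hr1 : r < 1) (w : ℂ) (hw : ‖w‖ ≤ 1) : ‖mo r w‖ ≤ 1 := by
  unfold mo
  have hd := norm_pos_iff.2 (den_ne r hr hr1 w hw)
  rw [norm_div, div_le_one hd]
  have h := mo_sq r w
  have h1 : 0 ≤ (1 - ‖w‖ ^ 2) * (1 - r ^ 2) := by
    apply mul_nonneg
    · nlinarith [norm_nonneg w]
    · nlinarith
  exact le_of_sq_le_sq (by linarith) hd.le

lemma mo_lt (r : ℝ) (hr : 0 < r) (hr1 : r < 1) (w : ℂ) (hw : ‖w‖ < 1) : ‖mo r w‖ < 1 := by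
  unfold mo
  have hd := norm_pos_iff.2 (den_ne r hr hr1 w hw.le)
  rw [norm_div, div_lt_one hd]
  have h := mo_sq r w
  have h1 : 0 < (1 - ‖w‖ ^ 2) * (1 - r ^ 2) := by
    apply mul_pos
    · nlinarith [norm_nonneg w]
    · nlinarith
  exact lt_of_pow_lt_pow_left₀ 2 hd.le (by linarith)

theorem t_CMP (hFS : S_FS) (hMOB : S_MOB) : S_CMP := by
  obtain ⟨hFS1, hFS2, -⟩ := hFS
  intro r hr hr1 c hc hc0
  have hcs : Summable fun j : ℕ => ‖c j‖ := by simpa using hc 0
  set φ : ℝ → ℂ := fun t => ∑' j : ℕ, c j * ej j t with hφ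
  have hφs : ContDiff ℝ ∞ φ := hFS2 c hc
  have habs : |-r| < 1 := by rw [abs_neg, abs_of_pos hr]; exact hr1
  have habs' : |r| < 1 := by rw [abs_of_pos hr]; exact hr1
  obtain ⟨m1, m2, -, m4, -⟩ := hMOB (-r) habs
  obtain ⟨-, -, -, -, m5⟩ := hMOB r habs'
  set A : ℝ → ℂ := fun s => φ (s + mob (-r) s) with hA
  have hAs : ContDiff ℝ ∞ A := hφs.comp (contDiff_id.add m1)
  have hφe : ∀ t, φ t = ∑' j : ℕ, c j * (ej 1 t) ^ j := by
    intro t
    rw [hφ]
    simp only [ej_one_pow]
  have hAe : ∀ s, A s = ∑' j : ℕ, c j * (mo r (ej 1 s)) ^ j := by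
    intro s
    rw [hA]
    simp only
    rw [hφe, m4 s]
    unfold mo
    push_cast
    simp only [neg_mul, ← sub_eq_add_neg]
  have ej_per : ∀ s, ej 1 (s + 2 * Real.pi) = ej 1 s := by
    intro s
    unfold ej
    rw [show (((1 : ℤ) : ℝ) * (s + 2 * Real.pi) : ℝ) = (1 : ℤ) * s + 2 * Real.pi by push_cast; ring]
    rw [Complex.ofReal_add, add_mul, Complex.exp_add]
    have : ((2 * Real.pi : ℝ) : ℂ) * Complex.I = 2 * Real.pi * Complex.I := by push_cast; ring
    rw [this, Complex.exp_two_pi_mul_I, mul_one]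
  have hAp : ∀ s, A (s + 2 * Real.pi) = A s := by
    intro s
    rw [hAe, hAe, ej_per]
  obtain ⟨c', hc'1, hc'2, hc'3⟩ := hFS1 A hAs hAp
  -- the analytic function in the disc
  set f : ℂ → ℂ := fun w => ∑' j : ℕ, c j * (mo r w) ^ j with hf
  have hbound : ∀ (j : ℕ) (z : ℂ), ‖z‖ ≤ 1 → ‖c j * z ^ j‖ ≤ ‖c j‖ := by
    intro j z hz
    rw [norm_mul, norm_pow]
    calc ‖c j‖ * ‖z‖ ^ j ≤ ‖c j‖ * 1 := by
          gcongr
          exact pow_le_one₀ (norm_nonneg _) hz
      _ = ‖c j‖ := mul_one _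
  have hmod : ∀ w : ℂ, ‖w‖ ≤ 1 → DifferentiableAt ℂ (mo r) w := by
    intro w hw
    unfold mo
    apply DifferentiableAt.fun_div
    · exact differentiableAt_id.sub_const _
    · exact (differentiableAt_const _).sub ((differentiableAt_const _).mul differentiableAt_id)
    · exact den_ne r hr hr1 w hw
  have hfc : ContinuousOn f (Metric.closedBall 0 1) := by
    apply continuousOn_tsum (u := fun j => ‖c j‖)
    · intro j w hw
      rw [mem_closedBall_zero_iff] at hw
      exact (((hmod w hw).pow j).const_mul (c j)).continuousAt.continuousWithinAt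
    · exact hcs
    · intro j w hw
      rw [mem_closedBall_zero_iff] at hw
      exact hbound j _ (mo_le r hr hr1 w hw)
  have hfd : DifferentiableOn ℂ f (Metric.ball 0 1) := by
    apply Complex.differentiableOn_tsum_of_summable_norm hcs
    · intro j w hw
      rw [mem_ball_zero_iff] at hw
      exact (((hmod w hw.le).pow j).const_mul (c j)).differentiableWithinAt
    · exact Metric.isOpen_ball
    · intro j w hw
      rw [mem_ball_zero_iff] at hw
      exact hbound j _ (mo_le r hr hr1 w hw.le)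
  have hf0 : f 0 = 0 := by
    have h0 : mo r 0 = -(r : ℂ) := by unfold mo; simp
    show ∑' j : ℕ, c j * (mo r 0) ^ j = 0
    rw [h0]
    exact hc0
  have hzero : ∀ n : ℕ, c' (-(n : ℤ)) = 0 := by
    intro n
    have hg : DiffContOnCl ℂ (fun w : ℂ => f w * w ^ n) (Metric.ball 0 |(1 : ℝ)|) := by
      rw [abs_one]
      refine ⟨?_, ?_⟩
      · exact hfd.mul (differentiableOn_id.pow n)
      · rw [closure_ball (0 : ℂ) one_ne_zero]
        exact hfc.mul (continuousOn_id.pow n)
    have h1 := hg.circleAverage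
    simp only [hf0, zero_mul] at h1
    rw [Real.circleAverage_def] at h1
    rw [hc'3]
    have h2 : ∀ t : ℝ, A t * ej (-(-(n : ℤ))) t =
        f (circleMap 0 1 t) * (circleMap 0 1 t) ^ n := by
      intro t
      have h3 : circleMap 0 1 t = ej 1 t := by
        unfold circleMap ej
        simp
      rw [h3, neg_neg, ej_one_pow, hAe]
    simp_rw [h2]
    rw [Complex.real_smul] at h1
    have h4 : (((1 / (2 * Real.pi) : ℝ)) : ℂ) = (((2 * Real.pi)⁻¹ : ℝ) : ℂ) := by
      rw [one_div]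
    rw [h4]
    exact h1
  refine ⟨A, fun j => c' (j + 1), ⟨hAs, ?_, ?_⟩, ?_⟩
  · have h0 : Summable fun j : ℤ => ‖c' j‖ := by simpa using hc'1 0
    exact h0.comp_injective (i := fun j : ℕ => ((j : ℤ) + 1)) (by
      intro a b h
      simpa using h)
  · intro t
    rw [hc'2 t]
    have hinj : Function.Injective (fun j : ℕ => ((j : ℤ) + 1)) := by
      intro a b h
      simpa using h
    symm
    apply hinj.tsum_eq (f := fun j : ℤ => c' j * ej j t)
    intro j hj
    rw [Function.mem_support] at hj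
    by_contra hn
    apply hj
    have hj0 : j ≤ 0 := by
      by_contra hpos
      push Not at hpos
      apply hn
      refine ⟨(j - 1).toNat, ?_⟩
      simp only
      omega
    have := hzero (-j).toNat
    rw [Int.toNat_of_nonneg (by omega), neg_neg] at this
    rw [this, zero_mul]
  · intro t
    rw [hA]
    simp only
    rw [m5 t]

end Pool.Agent.Y446.PL
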